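import Pool.Agent.Helper66.W4.BASE6

set_option autoImplicit false

namespace Pool.Agent.Helper66.W4.BASE
open Polynomial Module IntermediateField Pool.Agent.Helper40.W4

theorem base_thm (hDEGB : S_DEGB) (hDED : S_DED) (hADD : S_ADD) : S_BASE := by
  intro k _ _ i a s hi hind htop σ hσi hσa hσs
  have hint : IsIntegral ℚ i := by
    refine ⟨X ^ 2 + C 1, by monicity!, ?_⟩
    simp [hi]
  have halg : Algebra.IsAlgebraic ℚ ℚ⟮i⟯ := IntermediateField.isAlgebraic_adjoin_simple hint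
  have hind2 : AlgebraicIndependent ℚ⟮i⟯ ![a, s] := hind.extendScalars ℚ⟮i⟯
  have htr := hind2.transcendental_adjoin (s := {1}) (i := 0) (by simp)
  have himg : (![a, s] : Fin 2 → k) '' {1} = {s} := by simp
  rw [himg] at htr
  have htr2 : Transcendental ((ℚ⟮i⟯)⟮s⟯) a :=
    IntermediateField.transcendental_adjoin_iff.2 htr
  have htop2 : ((ℚ⟮i⟯)⟮s⟯)⟮a⟯ = ⊤ := by
    rw [eq_top_iff]
    intro x _
    have h1 : adjoin ℚ {i, a, s} ≤
        (((ℚ⟮i⟯)⟮s⟯)⟮a⟯.restrictScalars ℚ⟮i⟯).restrictScalars ℚ := by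
      rw [IntermediateField.adjoin_le_iff]
      intro y hy
      rcases hy with rfl | rfl | rfl
      · have h2 : algebraMap ((ℚ⟮y⟯)⟮s⟯) k (algebraMap ℚ⟮y⟯ ((ℚ⟮y⟯)⟮s⟯)
            ⟨y, IntermediateField.mem_adjoin_simple_self ℚ y⟩) ∈ ((ℚ⟮y⟯)⟮s⟯)⟮a⟯ :=
          IntermediateField.algebraMap_mem _ _
        exact h2
      · exact IntermediateField.mem_adjoin_simple_self ((ℚ⟮i⟯)⟮s⟯) y
      · have h2 : algebraMap ((ℚ⟮i⟯)⟮y⟯) k ⟨y, IntermediateField.mem_adjoin_simple_self ℚ⟮i⟯ y⟩ ∈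
          ((ℚ⟮i⟯)⟮y⟯)⟮a⟯ := IntermediateField.algebraMap_mem _ _
        exact h2
    have h3 : x ∈ adjoin ℚ {i, a, s} := by rw [htop]; exact IntermediateField.mem_top
    exact h1 h3
  have hs0 : s ≠ 0 := hind.ne_zero 1
  have hchar : CharZero ((ℚ⟮i⟯)⟮s⟯) := by infer_instance
  exact base' (E := (ℚ⟮i⟯)⟮s⟯) a ⟨s, IntermediateField.mem_adjoin_simple_self ℚ⟮i⟯ s⟩ hDEGB hDED
    hADD (by intro h0; exact hs0 (congrArg Subtype.val h0)) htr2 htop2 σ hσa hσs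

end Pool.Agent.Helper66.W4.BASE
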