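import Pool.Agent.Helper40.W4.Spec

set_option autoImplicit false

namespace Pool.Agent.Helper66.W4.BASE
open Polynomial Module IntermediateField Pool.Agent.Helper40.W4

lemma coeff_sq_aux {κ : Type} [Field κ] (G : κ[X]) :
    (G * G).coeff 1 = G.coeff 0 * G.coeff 1 + G.coeff 1 * G.coeff 0 ∧
    (G * G).coeff 2 = G.coeff 0 * G.coeff 2 + (G.coeff 1 * G.coeff 1 + G.coeff 2 * G.coeff 0) ∧
    (G * G).coeff 5 = G.coeff 0 * G.coeff 5 + (G.coeff 1 * G.coeff 4 + (G.coeff 2 * G.coeff 3 +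
      (G.coeff 3 * G.coeff 2 + (G.coeff 4 * G.coeff 1 + G.coeff 5 * G.coeff 0)))) := by
  refine ⟨?_, ?_, ?_⟩ <;> simp [coeff_mul, Finset.Nat.antidiagonal_succ]

/-- `a X⁶ + X⁵ + s²` is not a square. -/
lemma fpoly_not_sq {κ : Type} [Field κ] [CharZero κ] (a s : κ) (hs : s ≠ 0) (G : κ[X])
    (h : G ^ 2 = fpoly a (s ^ 2)) : False := by
  have hdeg : G.natDegree ≤ 3 := by
    have h1 : (G ^ 2).natDegree ≤ 6 := by
      rw [h, fpoly]
      compute_degree
    rw [natDegree_pow] at h1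
    omega
  have h4 : G.coeff 4 = 0 := coeff_eq_zero_of_natDegree_lt (by omega)
  have h5 : G.coeff 5 = 0 := coeff_eq_zero_of_natDegree_lt (by omega)
  rw [pow_two] at h
  obtain ⟨e1, e2, e5⟩ := coeff_sq_aux G
  have c0 : (G * G).coeff 0 = s ^ 2 := by
    rw [h]; generalize s ^ 2 = t; simp [fpoly]
  have c1 : (G * G).coeff 1 = 0 := by
    rw [h]; generalize s ^ 2 = t; simp [fpoly, coeff_X_pow]
  have c2 : (G * G).coeff 2 = 0 := by
    rw [h]; generalize s ^ 2 = t; simp [fpoly, coeff_X_pow]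
  have c5 : (G * G).coeff 5 = 1 := by
    rw [h]; generalize s ^ 2 = t; simp [fpoly, coeff_X_pow]
  rw [mul_coeff_zero] at c0
  have g0 : G.coeff 0 ≠ 0 := by
    intro h0
    rw [h0, zero_mul] at c0
    exact hs (by simpa using c0.symm)
  have g1 : G.coeff 1 = 0 := by
    rw [e1] at c1
    have : 2 * (G.coeff 0 * G.coeff 1) = 0 := by linear_combination c1
    simpa [g0] using this
  have g2 : G.coeff 2 = 0 := by
    rw [e2, g1] at c2
    have : 2 * (G.coeff 0 * G.coeff 2) = 0 := by linear_combination c2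
    simpa [g0] using this
  rw [e5, h4, h5, g1, g2] at c5
  simp at c5

lemma exists_sq_of_mul {κ : Type} [Field κ] (f A B : κ[X]) (hB : B ≠ 0) (h : A ^ 2 = f * B ^ 2) :
    ∃ G : κ[X], G ^ 2 = f := by
  have h1 : B ^ 2 ∣ A ^ 2 := ⟨f, by rw [h, mul_comm]⟩
  have h2 : B ∣ A := (IsIntegrallyClosed.pow_dvd_pow_iff two_ne_zero).1 h1
  obtain ⟨G, rfl⟩ := h2
  refine ⟨G, ?_⟩
  have h3 : B ^ 2 ≠ 0 := pow_ne_zero _ hB
  apply mul_left_cancel₀ h3
  rw [← mul_pow, h, mul_comm]

/-- The generic `f` over `E[T][X]`. -/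
noncomputable def f0 {E : Type} [Field E] (s : E) : E[X][X] := C X * X ^ 6 + X ^ 5 + C (C (s ^ 2))

lemma f0_map {E κ : Type} [Field E] [Field κ] (s : E) (φ : E[X] →+* κ) :
    (f0 s).map φ = fpoly (φ X) (φ (C s) ^ 2) := by
  simp [f0, fpoly]

lemma pell0 {E : Type} [Field E] [CharZero E] (s : E) (j : ℕ) (e : E) (A B : E[X][X])
    (h : A ^ 2 - f0 s * B ^ 2 = C (C e) * X ^ j) : B = 0 := by
  by_contra hB
  have h' := congrArg (Polynomial.Bivariate.swap (R := E)) h
  simp only [map_sub, map_mul, map_pow (Bivariate.swap (R := E)), f0, map_add] at h'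
  rw [Bivariate.swap_X, Bivariate.swap_Y, Bivariate.swap_C_C, Bivariate.swap_C_C] at h'
  set A' := Polynomial.Bivariate.swap (R := E) A with hA'
  set B' := Polynomial.Bivariate.swap (R := E) B with hB'
  have hB0 : B' ≠ 0 := by
    rw [hB']
    simpa using hB
  have hf : (X * C (X : E[X]) ^ 6 + C (X : E[X]) ^ 5 + C (C (s ^ 2)) : E[X][X]) =
      C ((X : E[X]) ^ 6) * X + C (X ^ 5 + C (s ^ 2)) := by
    simp only [C_add, C_pow]
    ring
  have hdf : (C ((X : E[X]) ^ 6) * X + C (X ^ 5 + C (s ^ 2)) : E[X][X]).natDegree = 1 :=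
    natDegree_linear (pow_ne_zero _ X_ne_zero)
  rw [hf] at h'
  have hA2 : A' ^ 2 = (C ((X : E[X]) ^ 6) * X + C (X ^ 5 + C (s ^ 2))) * B' ^ 2 +
      C (C e * X ^ j) := by
    have e5 : (C (C e * X ^ j) : E[X][X]) = C (C e) * C X ^ j := by rw [C_mul, C_pow]
    rw [e5, ← h']; ring
  have hne : (C ((X : E[X]) ^ 6) * X + C (X ^ 5 + C (s ^ 2)) : E[X][X]) ≠ 0 := by
    intro h0
    rw [h0] at hdf
    simp at hdf
  have hd1 : ((C ((X : E[X]) ^ 6) * X + C (X ^ 5 + C (s ^ 2))) * B' ^ 2 : E[X][X]).natDegree =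
      1 + 2 * B'.natDegree := by
    rw [natDegree_mul hne (pow_ne_zero _ hB0), hdf, natDegree_pow]
  have hd2 : (A' ^ 2).natDegree = 1 + 2 * B'.natDegree := by
    rw [hA2, natDegree_add_C, hd1]
  rw [natDegree_pow] at hd2
  omega

lemma pell1 {E : Type} [Field E] [CharZero E] (s : E) (hs : s ≠ 0) (j : ℕ) :
    ∀ (n : ℕ) (c : E[X]) (A B : E[X][X]), c ≠ 0 → c.natDegree ≤ n →
      A ^ 2 - f0 s * B ^ 2 = C c * X ^ j → B = 0 := by
  intro n
  induction n using Nat.strong_induction_on with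
  | _ n ih =>
  intro c A B hc hn h
  by_cases h0 : c.natDegree = 0
  · obtain ⟨e, rfl⟩ : ∃ e, c = C e := ⟨_, eq_C_of_natDegree_eq_zero h0⟩
    exact pell0 s j e A B h
  · obtain ⟨π, hπ, hπc⟩ := exists_irreducible_of_natDegree_ne_zero h0
    have : Fact (Irreducible π) := ⟨hπ⟩
    have : CharZero (AdjoinRoot π) := charZero_of_injective_algebraMap (R := E)
      (algebraMap E (AdjoinRoot π)).injective
    let φ : E[X] →+* AdjoinRoot π := AdjoinRoot.mk π
    have hφ : ∀ P : E[X][X], P.map φ = 0 → ∃ Q, P = C π * Q := by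
      intro P hP
      have : C π ∣ P := by
        rw [C_dvd_iff_dvd_coeff]
        intro i
        have := congrArg (fun q => q.coeff i) hP
        simp only [coeff_map, coeff_zero] at this
        exact AdjoinRoot.mk_eq_zero.1 this
      exact this
    have hm := congrArg (Polynomial.map φ) h
    have hc0 : φ c = 0 := AdjoinRoot.mk_eq_zero.2 hπc
    rw [Polynomial.map_sub, Polynomial.map_mul, Polynomial.map_pow, Polynomial.map_pow, f0_map,
      Polynomial.map_mul, map_C, hc0, C_0, zero_mul, sub_eq_zero] at hm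
    have hφs : φ (C s) ≠ 0 := by
      intro h0
      have h1 : π ∣ C s := AdjoinRoot.mk_eq_zero.1 h0
      exact hπ.not_isUnit (isUnit_of_dvd_unit h1 (isUnit_C.2 (isUnit_iff_ne_zero.2 hs)))
    have hB0 : B.map φ = 0 := by
      by_contra hB
      obtain ⟨G, hG⟩ := exists_sq_of_mul _ _ _ hB hm
      exact fpoly_not_sq _ _ hφs G hG
    have hA0 : A.map φ = 0 := by
      rw [hB0] at hm
      simpa using hm
    obtain ⟨A1, rfl⟩ := hφ A hA0
    obtain ⟨B1, rfl⟩ := hφ B hB0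
    have h1 : C (π ^ 2) * (A1 ^ 2 - f0 s * B1 ^ 2) = C c * X ^ j := by
      rw [← h, C_pow]; ring
    have h2 : π ^ 2 ∣ c := by
      have := congrArg (fun q => q.coeff j) h1
      simp only [coeff_C_mul, coeff_X_pow, if_true, mul_one] at this
      exact ⟨_, this.symm⟩
    obtain ⟨c1, rfl⟩ := h2
    have hπ0 : π ≠ 0 := hπ.ne_zero
    have h3 : A1 ^ 2 - f0 s * B1 ^ 2 = C c1 * X ^ j := by
      have h4 : (C (π ^ 2) : E[X][X]) ≠ 0 := by
        rw [Ne, C_eq_zero]
        exact pow_ne_zero _ hπ0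
      apply mul_left_cancel₀ h4
      rw [h1, C_mul, mul_assoc]
    have hc1 : c1 ≠ 0 := right_ne_zero_of_mul hc
    have hd : c1.natDegree < (π ^ 2 * c1).natDegree := by
      rw [natDegree_mul (pow_ne_zero _ hπ0) hc1, natDegree_pow]
      have : 0 < π.natDegree := hπ.natDegree_pos
      omega
    have := ih c1.natDegree (by omega) c1 A1 B1 hc1 le_rfl h3
    rw [this, mul_zero]

section

variable {E k : Type} [Field E] [Field k] [Algebra E k] {a : k}

lemma frac (htop : E⟮a⟯ = ⊤) (z : k) :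
    ∃ p q : E[X], aeval a q ≠ 0 ∧ z * aeval a q = aeval a p := by
  have hz : z ∈ E⟮a⟯ := by rw [htop]; exact IntermediateField.mem_top
  rw [IntermediateField.mem_adjoin_simple_iff] at hz
  obtain ⟨r, s, hrs⟩ := hz
  by_cases hs : aeval a s = 0
  · refine ⟨0, 1, by simp, ?_⟩
    rw [hrs, hs]; simp
  · refine ⟨r, s, hs, ?_⟩
    rw [hrs]; field_simp

lemma cden (htop : E⟮a⟯ = ⊤) (P : k[X]) :
    ∃ (d : E[X]) (P0 : E[X][X]), aeval a d ≠ 0 ∧
      C (aeval a d) * P = P0.map (aeval a : E[X] →ₐ[E] k).toRingHom := by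
  induction P using Polynomial.induction_on' with
  | add p q hp hq =>
    obtain ⟨d1, P1, h1, e1⟩ := hp
    obtain ⟨d2, P2, h2, e2⟩ := hq
    refine ⟨d1 * d2, C d2 * P1 + C d1 * P2, by rw [map_mul]; exact mul_ne_zero h1 h2, ?_⟩
    rw [Polynomial.map_add, Polynomial.map_mul, Polynomial.map_mul, ← e1, ← e2, map_C, map_C]
    simp only [AlgHom.toRingHom_eq_coe, RingHom.coe_coe, map_mul]
    ring
  | monomial n z =>
    obtain ⟨p, q, hq, h⟩ := frac htop z
    refine ⟨q, monomial n p, hq, ?_⟩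
    rw [map_monomial, C_mul_monomial, mul_comm, h]
    rfl

lemma pell [CharZero E] (ha : Transcendental E a) (htop : E⟮a⟯ = ⊤) (s : E) (hs : s ≠ 0) (j : ℕ) (c : k)
    (hc : c ≠ 0) (A B : k[X])
    (h : A ^ 2 - fpoly a (algebraMap E k s ^ 2) * B ^ 2 = C c * X ^ j) : B = 0 := by
  set φ : E[X] →+* k := (aeval a : E[X] →ₐ[E] k).toRingHom with hφ
  have hinj : Function.Injective φ := transcendental_iff_injective.1 ha
  obtain ⟨d1, A1, hd1, e1⟩ := cden htop A
  obtain ⟨d2, B1, hd2, e2⟩ := cden htop B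
  have hf : fpoly a (algebraMap E k s ^ 2) = (f0 s).map φ := by
    rw [f0_map]; simp [hφ]
  have hΦ : Function.Injective (Polynomial.map φ) := Polynomial.map_injective φ hinj
  set A0 := C d2 * A1 with hA0
  set B0 := C d1 * B1 with hB0
  have hA0' : A0.map φ = C (φ (d1 * d2)) * A := by
    rw [hA0, Polynomial.map_mul, ← e1, map_C]
    simp only [hφ, AlgHom.toRingHom_eq_coe, RingHom.coe_coe, map_mul]
    ring
  have hB0' : B0.map φ = C (φ (d1 * d2)) * B := by
    rw [hB0, Polynomial.map_mul, ← e2, map_C]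
    simp only [hφ, AlgHom.toRingHom_eq_coe, RingHom.coe_coe, map_mul]
    ring
  have hd : φ (d1 * d2) ≠ 0 := by
    rw [map_mul]; exact mul_ne_zero hd1 hd2
  set G := A0 ^ 2 - f0 s * B0 ^ 2 with hG
  have hG' : G.map φ = C (φ (d1 * d2) ^ 2 * c) * X ^ j := by
    rw [hG, Polynomial.map_sub, Polynomial.map_mul, Polynomial.map_pow, Polynomial.map_pow, hA0',
      hB0', ← hf, C_mul, mul_assoc, ← h, C_pow]
    ring
  have hG2 : G = C (G.coeff j) * X ^ j := by
    apply hΦ
    show G.map φ = (C (G.coeff j) * X ^ j).map φ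
    rw [Polynomial.map_mul, map_C, Polynomial.map_pow, map_X, ← coeff_map, hG', coeff_C_mul,
      coeff_X_pow, if_pos rfl, mul_one]
  have hGj : G.coeff j ≠ 0 := by
    intro h0
    have h1 : φ (G.coeff j) = 0 := by rw [h0, map_zero]
    rw [← coeff_map, hG'] at h1
    simp only [coeff_C_mul, coeff_X_pow, if_true, mul_one] at h1
    exact (mul_ne_zero (pow_ne_zero _ hd) hc) h1
  have hB00 : B0 = 0 := pell1 s hs j _ (G.coeff j) A0 B0 hGj le_rfl (by rw [← hG2])
  rw [hB00, Polynomial.map_zero] at hB0'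
  have := hB0'.symm
  rw [mul_eq_zero, C_eq_zero] at this
  exact this.resolve_left hd

end

end Pool.Agent.Helper66.W4.BASE
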