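import Pool.Agent.Helper66.W4.BASE1

set_option autoImplicit false

namespace Pool.Agent.Helper66.W4.BASE
open Polynomial Module IntermediateField Pool.Agent.Helper40.W4

section

variable {k : Type} [Field k] (a : k) (s : k)

/-- The element `X` of `B`. -/
noncomputable def XB : BB k a (s ^ 2) := algebraMap k[X] _ X

/-- The element `Y` of `B`. -/
noncomputable def YB : BB k a (s ^ 2) := ⟨0, 1⟩

/-- Constants. -/
noncomputable def cB : k →+* BB k a (s ^ 2) := (algebraMap k[X] (BB k a (s ^ 2))).comp C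

lemma YB_sq : YB a s * YB a s = cB a s a * XB a s ^ 6 + XB a s ^ 5 + cB a s (s ^ 2) := by
  have h : (cB a s a * XB a s ^ 6 + XB a s ^ 5 + cB a s (s ^ 2)) =
      algebraMap k[X] (BB k a (s ^ 2)) (fpoly a (s ^ 2)) := by
    simp only [cB, XB, fpoly, map_add, map_mul, map_pow, RingHom.comp_apply]
  rw [h]
  ext1
  · simp [YB]
  · simp [YB]

lemma mem_subring_of {R : Type} [CommRing R] (ι : BB k a (s ^ 2) →+* R) (Z : Subring R)
    (hc : ∀ z : k, ι (cB a s z) ∈ Z) (hX : ι (XB a s) ∈ Z) (hY : ι (YB a s) ∈ Z)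
    (w : BB k a (s ^ 2)) : ι w ∈ Z := by
  have hp : ∀ p : k[X], ι (algebraMap k[X] _ p) ∈ Z := by
    intro p
    induction p using Polynomial.induction_on' with
    | add p q hp hq => rw [map_add, map_add]; exact Z.add_mem hp hq
    | monomial n z =>
      rw [← C_mul_X_pow_eq_monomial, map_mul, map_mul, map_pow, map_pow]
      exact Z.mul_mem (hc z) (Z.pow_mem hX n)
  have hw : w = algebraMap k[X] _ w.re + algebraMap k[X] _ w.im * YB a s := by
    ext1
    · simp [YB]
    · simp [YB]
  rw [hw, map_add, map_mul]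
  exact Z.add_mem (hp _) (Z.mul_mem (hp _) hY)

end

section

variable {E k : Type} [Field E] [Field k] [Algebra E k] (a : k) (s : E)

/-- Elements of `R` that are fractions of elements of the image of `ψ` with invertible
denominators. -/
def fracRing {C R : Type} [CommRing C] [CommRing R] (ψ : C →+* R) : Subring R where
  carrier := {z | ∃ c m, IsUnit (ψ m) ∧ z * ψ m = ψ c}
  zero_mem' := ⟨0, 1, by simp, by simp⟩
  one_mem' := ⟨1, 1, by simp, by simp⟩
  add_mem' := by
    rintro x y ⟨c, m, hm, h⟩ ⟨c', m', hm', h'⟩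
    refine ⟨c * m' + c' * m, m * m', by rw [map_mul]; exact hm.mul hm', ?_⟩
    rw [map_mul, map_add, map_mul, map_mul, ← h, ← h']; ring
  mul_mem' := by
    rintro x y ⟨c, m, hm, h⟩ ⟨c', m', hm', h'⟩
    refine ⟨c * c', m * m', by rw [map_mul]; exact hm.mul hm', ?_⟩
    rw [map_mul, map_mul, ← h, ← h']; ring
  neg_mem' := by
    rintro x ⟨c, m, hm, h⟩
    exact ⟨-c, m, hm, by rw [map_neg, ← h]; ring⟩

lemma mem_fracRing_image {C R : Type} [CommRing C] [CommRing R] (ψ : C →+* R) (c : C) :
    ψ c ∈ fracRing ψ := ⟨c, 1, by simp, by simp⟩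

lemma mem_fracRing_of_mul {C R : Type} [CommRing C] [CommRing R] (ψ : C →+* R) (z : R) (m : C)
    (hm : IsUnit (ψ m)) (h : z * ψ m ∈ fracRing ψ) : z ∈ fracRing ψ := by
  obtain ⟨c, m', hm', h'⟩ := h
  exact ⟨c, m * m', by rw [map_mul]; exact hm.mul hm', by rw [map_mul, ← h']; ring⟩

/-- The localised ring. -/
abbrev BX (a : k) (s : E) := Localization.Away (XB a (algebraMap E k s))

/-- The map from the polynomial ring. -/
noncomputable def psi (a : k) (s : E) : MvPolynomial (Fin 2) E →ₐ[E] BX a s :=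
  MvPolynomial.aeval ![algebraMap _ _ (XB a (algebraMap E k s)),
    algebraMap _ _ (YB a (algebraMap E k s))]

lemma psi_X0 : psi a s (MvPolynomial.X 0) = algebraMap _ (BX a s) (XB a (algebraMap E k s)) := by
  simp [psi]

lemma psi_X1 : psi a s (MvPolynomial.X 1) = algebraMap _ (BX a s) (YB a (algebraMap E k s)) := by
  simp [psi]

lemma psi_C (e : E) : psi a s (MvPolynomial.C e) =
    algebraMap _ (BX a s) (cB a (algebraMap E k s) (algebraMap E k e)) := by
  have h1 : psi a s (MvPolynomial.C e) = algebraMap E (BX a s) e := (psi a s).commutes e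
  rw [h1]
  rfl

lemma psi_surj (htop : E⟮a⟯ = ⊤) (z : BX a s) : z ∈ fracRing (psi a s).toRingHom := by
  set s' := algebraMap E k s with hs'
  set ι := algebraMap (BB k a (s' ^ 2)) (BX a s) with hι
  set ψ := (psi a s).toRingHom with hψ
  have hXu : IsUnit (ι (XB a s')) := IsLocalization.Away.algebraMap_isUnit (XB a s')
  have hX : ι (XB a s') ∈ fracRing ψ := by
    rw [← psi_X0 a s]; exact mem_fracRing_image ψ _
  have hY : ι (YB a s') ∈ fracRing ψ := by
    rw [← psi_X1 a s]; exact mem_fracRing_image ψ _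
  have hE : ∀ e : E, ι (cB a s' (algebraMap E k e)) ∈ fracRing ψ := by
    intro e
    rw [← psi_C a s]; exact mem_fracRing_image ψ _
  have ha : ι (cB a s' a) ∈ fracRing ψ := by
    have h1 := congrArg ι (YB_sq a s')
    simp only [map_add, map_mul, map_pow] at h1
    have h2 : ι (cB a s' a) * ψ (MvPolynomial.X 0 ^ 6) ∈ fracRing ψ := by
      have h3 : ι (cB a s' a) * ψ (MvPolynomial.X 0 ^ 6) =
          ι (YB a s') * ι (YB a s') - (ι (XB a s') ^ 5 + ι (cB a s' s') ^ 2) := by
        rw [map_pow]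
        have h4 : ψ (MvPolynomial.X 0) = ι (XB a s') := psi_X0 a s
        rw [h4, h1]; ring
      rw [h3]
      exact (fracRing ψ).sub_mem ((fracRing ψ).mul_mem hY hY)
        ((fracRing ψ).add_mem ((fracRing ψ).pow_mem hX 5) ((fracRing ψ).pow_mem (hE s) 2))
    refine mem_fracRing_of_mul ψ _ _ ?_ h2
    rw [map_pow]
    have h4 : ψ (MvPolynomial.X 0) = ι (XB a s') := psi_X0 a s
    rw [h4]
    exact hXu.pow 6
  let K0 : IntermediateField E k :=
    { carrier := {z | ι (cB a s' z) ∈ fracRing ψ}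
      mul_mem' := fun {x y} hx hy => by
        show ι (cB a s' (x * y)) ∈ fracRing ψ
        rw [map_mul, map_mul]
        exact (fracRing ψ).mul_mem hx hy
      add_mem' := fun {x y} hx hy => by
        show ι (cB a s' (x + y)) ∈ fracRing ψ
        rw [map_add, map_add]
        exact (fracRing ψ).add_mem hx hy
      algebraMap_mem' := hE
      inv_mem' := fun x hx => by
        show ι (cB a s' (x⁻¹)) ∈ fracRing ψ
        by_cases hx0 : x = 0
        · rw [hx0, inv_zero, map_zero, map_zero]; exact (fracRing ψ).zero_mem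
        · obtain ⟨c, m, hm, h⟩ := hx
          have h1 : ι (cB a s' x⁻¹) * ι (cB a s' x) = 1 := by
            rw [← map_mul, ← map_mul, inv_mul_cancel₀ hx0, map_one, map_one]
          refine ⟨m, c, ?_, ?_⟩
          · rw [← h]
            exact (IsUnit.of_mul_eq_one _ (by rw [mul_comm]; exact h1)).mul hm
          · rw [← h, ← mul_assoc, h1, one_mul] }
  have hK0 : K0 = ⊤ := by
    rw [eq_top_iff, ← htop]
    exact IntermediateField.adjoin_le_iff.2 (by
      intro x hx
      rw [Set.mem_singleton_iff] at hx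
      rw [hx]
      exact ha)
  have hc : ∀ z : k, ι (cB a s' z) ∈ fracRing ψ := by
    intro z
    have : z ∈ K0 := by rw [hK0]; exact IntermediateField.mem_top
    exact this
  have hB : ∀ w, ι w ∈ fracRing ψ := mem_subring_of a s' ι _ hc hX hY
  obtain ⟨⟨w, ⟨_, n, rfl⟩⟩, h⟩ := IsLocalization.surj (Submonoid.powers (XB a s')) z
  refine mem_fracRing_of_mul ψ z (MvPolynomial.X 0 ^ n) ?_ ?_
  · rw [map_pow]
    have h4 : ψ (MvPolynomial.X 0) = ι (XB a s') := psi_X0 a s
    rw [h4]
    exact hXu.pow n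
  · rw [map_pow]
    have h4 : ψ (MvPolynomial.X 0) = ι (XB a s') := psi_X0 a s
    have h5 : z * ι (XB a s' ^ n) = ι w := h
    rw [map_pow] at h5
    rw [h4, h5]
    exact hB w

end

end Pool.Agent.Helper66.W4.BASE
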