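import Pool.Agent.Helper66.W4.BASE2

set_option autoImplicit false

namespace Pool.Agent.Helper66.W4.BASE
open Polynomial Module IntermediateField Pool.Agent.Helper40.W4

section

variable {E k : Type} [Field E] [Field k] [Algebra E k] (a : k) (s : E)

lemma XB_ne_zero (a s : k) : XB a s ≠ 0 := by
  intro h
  have := congrArg QuadraticAlgebra.re h
  simp [XB] at this

lemma powers_le (a s : k) [IsDomain (BB k a (s ^ 2))] :
    Submonoid.powers (XB a s) ≤ nonZeroDivisors (BB k a (s ^ 2)) :=
  powers_le_nonZeroDivisors_of_noZeroDivisors (XB_ne_zero a s)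

lemma algInd [IsDomain (BB k a (algebraMap E k s ^ 2))]
    (ha : Transcendental E a) (htop : E⟮a⟯ = ⊤) :
    Function.Injective (psi a s) := by
  have hdom : IsDomain (BX a s) := IsLocalization.isDomain_of_le_nonZeroDivisors _
    (powers_le a (algebraMap E k s))
  have hinj : Function.Injective (algebraMap (BB k a (algebraMap E k s ^ 2)) (BX a s)) :=
    IsLocalization.injective _ (powers_le a (algebraMap E k s))
  have hk : ∀ z : k, algebraMap k (BX a s) z = algebraMap _ _ (cB a (algebraMap E k s) z) :=
    fun z => rfl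
  have : FaithfulSMul k (BX a s) := by
    rw [faithfulSMul_iff_algebraMap_injective]
    exact (algebraMap k (BX a s)).injective
  have : FaithfulSMul E (BX a s) := by
    rw [faithfulSMul_iff_algebraMap_injective]
    exact (algebraMap E (BX a s)).injective
  have hT1 : Algebra.Transcendental E k := ⟨⟨a, ha⟩⟩
  have hT2 : Algebra.Transcendental k (BX a s) := by
    refine ⟨⟨algebraMap _ _ (XB a (algebraMap E k s)), ?_⟩⟩
    rw [transcendental_iff_injective]
    have h1 : ∀ p : k[X], aeval (algebraMap _ (BX a s) (XB a (algebraMap E k s))) p =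
        algebraMap _ (BX a s) (algebraMap k[X] (BB k a (algebraMap E k s ^ 2)) p) := by
      intro p
      induction p using Polynomial.induction_on' with
      | add p q hp hq => rw [map_add, hp, hq, map_add, map_add]
      | monomial n z =>
        rw [aeval_monomial, hk, ← C_mul_X_pow_eq_monomial, map_mul, map_mul, map_pow, map_pow]
        rfl
    intro p q hpq
    rw [h1, h1] at hpq
    exact QuadraticAlgebra.algebraMap_injective (hinj hpq)
  have htr : (2 : Cardinal) ≤ Algebra.trdeg E (BX a s) := by
    have h1 : 1 ≤ Algebra.trdeg E k := Cardinal.one_le_iff_pos.2 (trdeg_pos E k)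
    have h2 : 1 ≤ Algebra.trdeg k (BX a s) :=
      Cardinal.one_le_iff_pos.2 (trdeg_pos k (BX a s))
    have : IsScalarTower E k (BX a s) := IsScalarTower.of_algebraMap_eq (fun x => rfl)
    rw [← trdeg_add_eq E k (A := BX a s)]
    calc (2 : Cardinal) = 1 + 1 := by norm_num
      _ ≤ _ := add_le_add h1 h2
  set x : Fin 2 → BX a s := ![algebraMap _ _ (XB a (algebraMap E k s)),
    algebraMap _ _ (YB a (algebraMap E k s))] with hx
  have hmem : ∀ c, psi a s c ∈ Algebra.adjoin E (Set.range x) := by
    intro c
    rw [Algebra.adjoin_range_eq_range_aeval]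
    exact ⟨c, rfl⟩
  have halg : Algebra.IsAlgebraic (Algebra.adjoin E (Set.range x)) (BX a s) := by
    refine ⟨fun z => ?_⟩
    obtain ⟨c, m, hm, h⟩ := psi_surj a s htop z
    have hm0 : psi a s m ≠ 0 := hm.ne_zero
    refine ⟨C ⟨psi a s m, hmem m⟩ * X - C ⟨psi a s c, hmem c⟩, ?_, ?_⟩
    · intro h0
      have := congrArg (fun p => p.coeff 1) h0
      simp only [coeff_sub, coeff_C_mul, coeff_X_one, mul_one, coeff_C, one_ne_zero, if_false,
        sub_zero, coeff_zero] at this
      exact hm0 (congrArg Subtype.val this)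
    · simp only [map_sub, map_mul, aeval_C, aeval_X]
      have h' : z * psi a s m = psi a s c := h
      show psi a s m * z - psi a s c = 0
      rw [← h']; ring
  have hcard : Cardinal.mk (Fin 2) ≤ Algebra.trdeg E (BX a s) := by simpa using htr
  have hb := Algebra.IsAlgebraic.isTranscendenceBasis_of_le_trdeg_of_finite E x hcard
  exact hb.1

lemma isLocal [IsDomain (BB k a (algebraMap E k s ^ 2))]
    (ha : Transcendental E a) (htop : E⟮a⟯ = ⊤) :
    @IsLocalization (MvPolynomial (Fin 2) E) _
      ((IsUnit.submonoid (BX a s)).comap (psi a s).toRingHom) (BX a s) _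
      (psi a s).toRingHom.toAlgebra := by
  let := (psi a s).toRingHom.toAlgebra
  refine ⟨?_, ?_, ?_⟩
  · rintro ⟨m, hm⟩
    exact hm
  · intro z
    obtain ⟨c, m, hm, h⟩ := psi_surj a s htop z
    exact ⟨(c, ⟨m, hm⟩), h⟩
  · intro x y h
    have := algInd a s ha htop h
    exact ⟨1, by rw [this]⟩

lemma pid [IsDedekindDomain (BB k a (algebraMap E k s ^ 2))]
    (ha : Transcendental E a) (htop : E⟮a⟯ = ⊤) :
    IsDedekindDomain (BX a s) ∧ IsPrincipalIdealRing (BX a s) := by
  have hdom : IsDomain (BX a s) := IsLocalization.isDomain_of_le_nonZeroDivisors _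
    (powers_le a (algebraMap E k s))
  have hD : IsDedekindDomain (BX a s) := IsLocalization.isDedekindDomain _
    (powers_le a (algebraMap E k s)) _
  have hU : UniqueFactorizationMonoid (BX a s) := by
    let := (psi a s).toRingHom.toAlgebra
    have := isLocal a s ha htop
    exact UniqueFactorizationMonoid.of_isLocalization
      ((IsUnit.submonoid (BX a s)).comap (psi a s).toRingHom) (BX a s)
  exact ⟨hD, IsPrincipalIdealRing.of_isDedekindDomain_of_uniqueFactorizationMonoid _⟩

end

end Pool.Agent.Helper66.W4.BASE
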