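import Pool.Agent.Helper66.W4.BASE3

set_option autoImplicit false

namespace Pool.Agent.Helper66.W4.BASE
open Polynomial Module IntermediateField Pool.Agent.Helper40.W4

section

variable {k : Type} [Field k] (a s t : k)

/-- Evaluation at the point `(0, t)`. -/
noncomputable def ev (ht : t ^ 2 = s ^ 2) : BB k a (s ^ 2) →ₐ[k] k where
  toFun w := w.re.eval 0 + w.im.eval 0 * t
  map_one' := by simp [QuadraticAlgebra.re_one, QuadraticAlgebra.im_one]
  map_mul' x y := by
    simp only [QuadraticAlgebra.re_mul, QuadraticAlgebra.im_mul, eval_add, eval_mul, fpoly,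
      eval_C, eval_pow, eval_X, zero_mul, add_zero]
    ring_nf
    rw [ht]
    ring
  map_zero' := by simp
  map_add' x y := by simp; ring
  commutes' r := by
    have h1 : algebraMap k (BB k a (s ^ 2)) r = algebraMap k[X] _ (C r) := rfl
    rw [h1]
    simp

lemma ev_apply (ht : t ^ 2 = s ^ 2) (w : BB k a (s ^ 2)) :
    ev a s t ht w = w.re.eval 0 + w.im.eval 0 * t := rfl

/-- The prime of the point `(0, t)`. -/
noncomputable def PP (ht : t ^ 2 = s ^ 2) : Ideal (BB k a (s ^ 2)) := RingHom.ker (ev a s t ht)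

lemma mem_PP (ht : t ^ 2 = s ^ 2) (w : BB k a (s ^ 2)) :
    w ∈ PP a s t ht ↔ w.re.eval 0 + w.im.eval 0 * t = 0 := Iff.rfl

lemma ev_surj (ht : t ^ 2 = s ^ 2) : Function.Surjective (ev a s t ht) := by
  intro z
  exact ⟨algebraMap k _ z, (ev a s t ht).commutes z⟩

lemma PP_max (ht : t ^ 2 = s ^ 2) : (PP a s t ht).IsMaximal :=
  RingHom.ker_isMaximal_of_surjective (ev a s t ht) (ev_surj a s t ht)

lemma PP_finrank (ht : t ^ 2 = s ^ 2) : finrank k (BB k a (s ^ 2) ⧸ PP a s t ht) = 1 := by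
  unfold PP
  rw [(Ideal.quotientKerAlgEquivOfSurjective (ev_surj a s t ht)).toLinearEquiv.finrank_eq,
    finrank_self]

lemma PP_ne (ht : t ^ 2 = s ^ 2) (ht' : (-t) ^ 2 = s ^ 2) (h0 : t ≠ 0) (h2 : (2 : k) ≠ 0) :
    ¬ PP a s t ht ≤ PP a s (-t) ht' := by
  intro h
  have h1 : (⟨C (-t), 1⟩ : BB k a (s ^ 2)) ∈ PP a s t ht := by
    rw [mem_PP]; simp
  have h3 := h h1
  rw [mem_PP] at h3
  simp only [eval_C, eval_one] at h3
  have : 2 * t = 0 := by linear_combination -h3
  exact (mul_ne_zero h2 h0) this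

lemma PP_mul (ht : t ^ 2 = s ^ 2) (ht' : (-t) ^ 2 = s ^ 2) (h0 : t ≠ 0) (h2 : (2 : k) ≠ 0) :
    PP a s t ht * PP a s (-t) ht' = Ideal.span {XB a s} := by
  have hcop : IsCoprime (PP a s t ht) (PP a s (-t) ht') := by
    rw [Ideal.isCoprime_iff_sup_eq]
    have hm := PP_max a s (-t) ht'
    by_contra hne
    have := hm.eq_of_le hne le_sup_right
    exact PP_ne a s t ht ht' h0 h2 (by rw [this]; exact le_sup_left)
  rw [Ideal.mul_eq_inf_of_isCoprime hcop]
  apply le_antisymm
  · intro w hw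
    rw [Ideal.mem_inf, mem_PP, mem_PP] at hw
    obtain ⟨h3, h4⟩ := hw
    have h5 : w.re.eval 0 = 0 := by
      have : 2 * w.re.eval 0 = 0 := by linear_combination h3 + h4
      exact (mul_eq_zero.1 this).resolve_left h2
    have h6 : w.im.eval 0 = 0 := by
      rw [h5, zero_add] at h3
      exact (mul_eq_zero.1 h3).resolve_right h0
    rw [Ideal.mem_span_singleton]
    have h7 : X ∣ w.re := by rw [X_dvd_iff, coeff_zero_eq_eval_zero, h5]
    have h8 : X ∣ w.im := by rw [X_dvd_iff, coeff_zero_eq_eval_zero, h6]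
    exact QuadraticAlgebra.algebraMap_dvd_iff.2 ⟨h7, h8⟩
  · rw [Ideal.span_le, Set.singleton_subset_iff, SetLike.mem_coe, Ideal.mem_inf, mem_PP, mem_PP]
    simp [XB]

lemma sigma_PP (ht : t ^ 2 = s ^ 2) (ht' : (-t) ^ 2 = s ^ 2) (σ : k ≃+* k) (hσa : σ a = a)
    (hσs : σ (s ^ 2) = s ^ 2) (hσt : σ t = -t) :
    (PP a s t ht).map (bmap (a := a) (c := s ^ 2) (a' := a) (c' := s ^ 2) (σ : k →+* k) hσa hσs) =
      PP a s (-t) ht' := by
  apply le_antisymm
  · rw [Ideal.map_le_iff_le_comap]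
    intro w hw
    rw [Ideal.mem_comap, mem_PP]
    rw [mem_PP] at hw
    have h1 : (bmap (a := a) (c := s ^ 2) (a' := a) (c' := s ^ 2) (σ : k →+* k) hσa hσs w).re =
      w.re.map (σ : k →+* k) := rfl
    have h2 : (bmap (a := a) (c := s ^ 2) (a' := a) (c' := s ^ 2) (σ : k →+* k) hσa hσs w).im =
      w.im.map (σ : k →+* k) := rfl
    have h3 := congrArg σ hw
    rw [h1, h2, eval_map, eval_map, eval₂_at_zero, eval₂_at_zero, ← hσt]
    rw [map_add, map_mul, map_zero] at h3
    rw [← coeff_zero_eq_eval_zero, ← coeff_zero_eq_eval_zero] at h3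
    exact h3
  · intro w hw
    have hσt' : σ.symm t = -t := by
      rw [RingEquiv.symm_apply_eq, map_neg, hσt, neg_neg]
    have h1 : w = bmap (a := a) (c := s ^ 2) (a' := a) (c' := s ^ 2) (σ : k →+* k) hσa hσs
        ⟨w.re.map (σ.symm : k →+* k), w.im.map (σ.symm : k →+* k)⟩ := by
      ext1
      · show w.re = (w.re.map (σ.symm : k →+* k)).map (σ : k →+* k)
        rw [Polynomial.map_map]
        simp
      · show w.im = (w.im.map (σ.symm : k →+* k)).map (σ : k →+* k)
        rw [Polynomial.map_map]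
        simp
    rw [h1]
    apply Ideal.mem_map_of_mem
    rw [mem_PP] at hw ⊢
    have h3 := congrArg σ.symm hw
    simp only
    rw [eval_map, eval_map, eval₂_at_zero, eval₂_at_zero]
    rw [map_add, map_mul, map_zero, map_neg, hσt', neg_neg] at h3
    rw [← coeff_zero_eq_eval_zero, ← coeff_zero_eq_eval_zero] at h3
    exact h3

end

section

variable {E k : Type} [Field E] [Field k] [Algebra E k] (a : k) (s : E)

lemma class_gen (h2 : (2 : k) ≠ 0) (hs : algebraMap E k s ≠ 0)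
    [IsDedekindDomain (BB k a (algebraMap E k s ^ 2))]
    (ha : Transcendental E a) (htop : E⟮a⟯ = ⊤)
    (ht : algebraMap E k s ^ 2 = algebraMap E k s ^ 2)
    (ht' : (-algebraMap E k s) ^ 2 = algebraMap E k s ^ 2)
    (I : Ideal (BB k a (algebraMap E k s ^ 2))) (hI : I ≠ ⊥) :
    ∃ (g : BB k a (algebraMap E k s ^ 2)) (m n : ℕ), g ≠ 0 ∧
      Ideal.span {g} = I * (PP a (algebraMap E k s) (algebraMap E k s) ht ^ m *
        PP a (algebraMap E k s) (-algebraMap E k s) ht' ^ n) := by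
  obtain ⟨hD, hP⟩ := pid a s ha htop
  set ι := algebraMap (BB k a ((algebraMap E k s) ^ 2)) (BX a s) with hι
  have hinj : Function.Injective ι := IsLocalization.injective _ (powers_le a (algebraMap E k s))
  have hXu : IsUnit (ι (XB a (algebraMap E k s))) := IsLocalization.Away.algebraMap_isUnit (XB a (algebraMap E k s))
  obtain ⟨g', hg'⟩ := (hP.principal (I.map ι)).principal
  obtain ⟨⟨g, ⟨_, n, rfl⟩⟩, h⟩ := IsLocalization.surj (Submonoid.powers (XB a (algebraMap E k s))) g'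
  have h5 : g' * ι (XB a (algebraMap E k s) ^ n) = ι g := h
  have hg1 : I.map ι = Ideal.span {ι g} := by
    rw [hg', ← h5]
    show Ideal.span {g'} = _
    rw [Ideal.span_singleton_mul_right_unit (by rw [map_pow]; exact hXu.pow n)]
  have hgm : ι g ∈ I.map ι := by
    rw [hg1]; exact Ideal.mem_span_singleton_self _
  obtain ⟨m, hm, hmI⟩ := (IsLocalization.algebraMap_mem_map_algebraMap_iff
    (Submonoid.powers (XB a (algebraMap E k s))) _ I g).1 hgm
  obtain ⟨r, rfl⟩ := hm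
  have hmI' : XB a (algebraMap E k s) ^ r * g ∈ I := hmI
  set g1 := XB a (algebraMap E k s) ^ r * g with hg1d
  have hg2 : I.map ι = Ideal.span {ι g1} := by
    rw [hg1, hg1d, map_mul, mul_comm, Ideal.span_singleton_mul_right_unit
      (by rw [map_pow]; exact hXu.pow r)]
  have hIm : I.map ι ≠ ⊥ := by
    intro h0
    exact hI ((Ideal.map_eq_bot_iff_of_injective hinj).1 h0)
  have hg10 : g1 ≠ 0 := by
    intro h0
    rw [h0, map_zero] at hg2
    exact hIm (by rw [hg2]; simp)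
  have hdvd : I ∣ Ideal.span {g1} := by
    rw [Ideal.dvd_iff_le, Ideal.span_singleton_le_iff_mem]
    exact hmI'
  obtain ⟨J, hJ⟩ := hdvd
  have hJt : J.map ι = ⊤ := by
    have h6 : I.map ι * ⊤ = I.map ι * J.map ι := by
      rw [← Ideal.map_mul, ← hJ, Ideal.map_span, Set.image_singleton, ← hg2, Ideal.mul_top]
    exact (mul_left_cancel₀ hIm h6).symm
  have hJd := mt (IsLocalization.map_algebraMap_ne_top_iff_disjoint
    (Submonoid.powers (XB a (algebraMap E k s))) (BX a s) J).2 (by rw [not_not]; exact hJt)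
  rw [Set.not_disjoint_iff] at hJd
  obtain ⟨_, ⟨r', rfl⟩, hr'⟩ := hJd
  have hJX : J ∣ PP a (algebraMap E k s) (algebraMap E k s) ht ^ r' * PP a (algebraMap E k s) (-algebraMap E k s) ht' ^ r' := by
    rw [← mul_pow, PP_mul a (algebraMap E k s) (algebraMap E k s) ht ht' hs h2, Ideal.span_singleton_pow, Ideal.dvd_iff_le,
      Ideal.span_singleton_le_iff_mem]
    exact hr'
  obtain ⟨J1, J2, h7, h8, h9⟩ := exists_dvd_and_dvd_of_dvd_mul hJX
  have hp0 : ∀ (t : k) (ht : t ^ 2 = (algebraMap E k s) ^ 2) (ht2 : (-t) ^ 2 = (algebraMap E k s) ^ 2) (_ : t ≠ 0),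
      PP a (algebraMap E k s) t ht ≠ ⊥ := by
    intro t ht ht2 ht0 hbot
    have h10 := PP_mul a (algebraMap E k s) t ht ht2 ht0 h2
    rw [hbot, Ideal.bot_mul, eq_comm, Ideal.span_singleton_eq_bot] at h10
    exact XB_ne_zero a (algebraMap E k s) h10
  have hpr : ∀ (t : k) (ht : t ^ 2 = (algebraMap E k s) ^ 2) (ht2 : (-t) ^ 2 = (algebraMap E k s) ^ 2) (_ : t ≠ 0),
      Prime (PP a (algebraMap E k s) t ht) := by
    intro t ht ht2 ht0
    exact Ideal.prime_of_isPrime (hp0 t ht ht2 ht0) (PP_max a (algebraMap E k s) t ht).isPrime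
  obtain ⟨m, -, hm⟩ := (dvd_prime_pow (hpr (algebraMap E k s) ht ht' hs) r').1 h7
  obtain ⟨n', -, hn'⟩ := (dvd_prime_pow (hpr (-algebraMap E k s) ht' (by rw [neg_neg]) (neg_ne_zero.2 hs)) r').1 h8
  rw [associated_iff_eq] at hm hn'
  exact ⟨g1, m, n', hg10, by rw [hJ, h9, hm, hn']⟩

end

end Pool.Agent.Helper66.W4.BASE
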