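import Pool.Agent.Helper66.W4.BASE4

set_option autoImplicit false

namespace Pool.Agent.Helper66.W4.BASE
open Polynomial Module IntermediateField Pool.Agent.Helper40.W4

lemma cancel_aux {M : Type} [CommMonoidWithZero M] [IsCancelMulZero M] (U V P Q : M) (hP : P ≠ 0)
    (hQ : Q ≠ 0) (n d : ℕ) (h : U * (Q ^ (n + d) * P ^ n) = V * (P ^ (n + d) * Q ^ n)) :
    U * (P * Q) ^ d = V * P ^ (2 * d) := by
  have : Nontrivial M := ⟨P, 0, hP⟩
  have hc0 : P ^ n * Q ^ n ≠ 0 := mul_ne_zero (pow_ne_zero _ hP) (pow_ne_zero _ hQ)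
  have h3 : U * Q ^ d = V * P ^ d := by
    apply mul_left_cancel₀ hc0
    have e1 : P ^ n * Q ^ n * (U * Q ^ d) = U * (Q ^ (n + d) * P ^ n) := by
      rw [pow_add]
      simp only [mul_assoc, mul_left_comm, mul_comm]
    have e2 : P ^ n * Q ^ n * (V * P ^ d) = V * (P ^ (n + d) * Q ^ n) := by
      rw [pow_add]
      simp only [mul_assoc, mul_left_comm, mul_comm]
    rw [e1, e2, h]
  rw [mul_pow, mul_comm (P ^ d), ← mul_assoc, h3, mul_assoc, ← pow_add, two_mul]

section

variable {E k : Type} [Field E] [Field k] [Algebra E k] (a : k) (s : E)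

lemma no_rel [CharZero E] [CharZero k] (hs : algebraMap E k s ≠ 0) [IsDedekindDomain (BB k a (algebraMap E k s ^ 2))]
    (ha : Transcendental E a) (htop : E⟮a⟯ = ⊤) (t : k)
    (ht : t ^ 2 = algebraMap E k s ^ 2) (ht' : (-t) ^ 2 = algebraMap E k s ^ 2)
    (u v : BB k a (algebraMap E k s ^ 2)) (hu : u ≠ 0) (hv : v ≠ 0) (m n : ℕ) (hnm : n < m)
    (h : Ideal.span {u} * (PP a _ (-t) ht' ^ m * PP a _ t ht ^ n) =
      Ideal.span {v} * (PP a _ t ht ^ m * PP a _ (-t) ht' ^ n)) : False := by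
  have h2 : (2 : k) ≠ 0 := two_ne_zero
  have hs0 : s ≠ 0 := by
    rintro rfl
    exact hs (map_zero _)
  have ht0 : t ≠ 0 := by
    rintro rfl
    have : algebraMap E k s ^ 2 = 0 := by rw [← ht]; ring
    exact hs (by simpa using this)
  have hPQ := PP_mul a _ t ht ht' ht0 h2
  have hnle := PP_ne a _ t ht ht' ht0 h2
  have hPm := PP_max a _ t ht
  have hQm := PP_max a _ (-t) ht'
  have hev : ∀ w : BB k a (algebraMap E k s ^ 2), w ∈ PP a _ t ht → w.im = 0 →
      w ∈ PP a _ (-t) ht' := by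
    intro w hw h0
    rw [mem_PP] at hw ⊢
    rw [h0] at hw ⊢
    simpa using hw
  generalize PP a _ t ht = P at *
  generalize PP a _ (-t) ht' = Q at *
  have hX0 : Ideal.span {XB a (algebraMap E k s)} ≠ ⊥ := by
    rw [Ne, Ideal.span_singleton_eq_bot]
    exact XB_ne_zero a _
  have hP0 : P ≠ ⊥ := by
    rintro rfl
    exact hX0 (by rw [← hPQ, Ideal.bot_mul])
  have hQ0 : Q ≠ ⊥ := by
    rintro rfl
    exact hX0 (by rw [← hPQ, Ideal.mul_bot])
  obtain ⟨d, rfl⟩ : ∃ d, m = n + d := ⟨m - n, by omega⟩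
  have hd : 0 < d := by omega
  have h4 : Ideal.span {u * XB a (algebraMap E k s) ^ d} = Ideal.span {v} * P ^ (2 * d) := by
    rw [← Ideal.span_singleton_mul_span_singleton, ← Ideal.span_singleton_pow, ← hPQ]
    exact cancel_aux _ _ P Q hP0 hQ0 n d h
  have h5 : v ∣ u * XB a (algebraMap E k s) ^ d := by
    rw [← Ideal.mem_span_singleton]
    have : u * XB a (algebraMap E k s) ^ d ∈ Ideal.span {v} * P ^ (2 * d) := by
      rw [← h4]; exact Ideal.mem_span_singleton_self _
    have h55 : Ideal.span {v} * P ^ (2 * d) ≤ Ideal.span {v} := Ideal.mul_le_left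
    exact h55 this
  obtain ⟨w, hw⟩ := h5
  have hv0 : Ideal.span {v} ≠ (0 : Ideal (BB k a (algebraMap E k s ^ 2))) := by
    rw [Ideal.zero_eq_bot, Ne, Ideal.span_singleton_eq_bot]; exact hv
  have h6 : Ideal.span {w} = P ^ (2 * d) := by
    apply mul_left_cancel₀ hv0
    rw [← h4, hw, Ideal.span_singleton_mul_span_singleton]
  have h7 : w ∣ XB a (algebraMap E k s) ^ (2 * d) := by
    rw [← Ideal.span_singleton_le_span_singleton, ← Ideal.span_singleton_pow, h6, ← hPQ, mul_pow]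
    exact Ideal.mul_le_left
  have h8 : QuadraticAlgebra.norm w ∣ (X : k[X]) ^ (4 * d) := by
    have e1 : QuadraticAlgebra.norm (XB a (algebraMap E k s) ^ (2 * d)) = (X : k[X]) ^ (4 * d) := by
      rw [map_pow, XB, QuadraticAlgebra.norm_algebraMap, ← pow_mul]
      congr 1; ring
    obtain ⟨z, hz⟩ := h7
    rw [← e1, hz, map_mul]
    exact Dvd.intro _ rfl
  obtain ⟨j, -, hj⟩ := (dvd_prime_pow prime_X (4 * d)).1 h8
  obtain ⟨c, hc⟩ := hj.symm
  obtain ⟨c', hc', hcc⟩ := Polynomial.isUnit_iff.1 c.isUnit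
  have hc'0 : c' ≠ 0 := hc'.ne_zero
  have h9 : w.im = 0 := by
    apply pell ha htop s hs0 j c' hc'0 w.re w.im
    rw [hcc, mul_comm (c : k[X]), hc, QuadraticAlgebra.norm_def]
    ring
  have hwP : w ∈ P := by
    have : w ∈ P ^ (2 * d) := by rw [← h6]; exact Ideal.mem_span_singleton_self _
    exact Ideal.pow_le_self (by omega) this
  have hwQ : w ∈ Q := hev w hwP h9
  have h10 : P ^ (2 * d) ≤ Q := by
    rw [← h6, Ideal.span_singleton_le_iff_mem]
    exact hwQ
  exact hnle (hQm.isPrime.le_of_pow_le h10)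

lemma nonsq (ha : Transcendental E a) (htop : E⟮a⟯ = ⊤) : ¬ IsSquare a := by
  rintro ⟨b, hb⟩
  obtain ⟨p, q, hq, h⟩ := frac htop b
  have hinj := transcendental_iff_injective.1 ha
  have h1 : X * (q * q) = p * p := by
    apply hinj
    rw [map_mul, map_mul, map_mul, ← h, aeval_X, hb]
    ring
  have hq0 : q ≠ 0 := by
    rintro rfl
    simp at hq
  have hp0 : p ≠ 0 := by
    rintro rfl
    rw [mul_zero] at h1
    exact mul_ne_zero X_ne_zero (mul_ne_zero hq0 hq0) h1
  have h2 := congrArg natDegree h1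
  rw [natDegree_mul X_ne_zero (mul_ne_zero hq0 hq0), natDegree_mul hq0 hq0, natDegree_mul hp0 hp0,
    natDegree_X] at h2
  omega

lemma sqfree [CharZero E] [CharZero k] (hs : s ≠ 0) (ha : Transcendental E a) :
    Squarefree (fpoly a (algebraMap E k s ^ 2)) := by
  apply Polynomial.Separable.squarefree
  unfold Polynomial.Separable
  rw [Polynomial.isCoprime_iff_aeval_ne_zero_of_isAlgClosed k (AlgebraicClosure k)]
  intro x
  by_contra hcon
  push Not at hcon
  obtain ⟨h1, h2⟩ := hcon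
  have hs' : algebraMap k (AlgebraicClosure k) (algebraMap E k s) ≠ 0 := by
    rw [Ne, map_eq_zero, map_eq_zero]; exact hs
  set A := algebraMap k (AlgebraicClosure k) a with hA
  set S := algebraMap k (AlgebraicClosure k) (algebraMap E k s) with hS
  have h1' : A * x ^ 6 + x ^ 5 + S ^ 2 = 0 := by
    simpa [fpoly, hA, hS] using h1
  have h2' : x ^ 4 * (6 * A * x + 5) = 0 := by
    have hder : derivative (fpoly a (algebraMap E k s ^ 2)) = C a * (6 * X ^ 5) + 5 * X ^ 4 := by
      generalize algebraMap E k s ^ 2 = c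
      rw [fpoly, derivative_add, derivative_add, derivative_C_mul, derivative_X_pow,
        derivative_X_pow, derivative_C, add_zero]
      norm_num [map_ofNat]
    rw [hder] at h2
    have : A * (6 * x ^ 5) + 5 * x ^ 4 = 0 := by
      rw [← h2]
      simp only [map_add, map_mul, map_pow, map_ofNat, aeval_C, aeval_X, hA]
    linear_combination this
  have hx0 : x ≠ 0 := by
    rintro rfl
    have : S ^ 2 = 0 := by linear_combination h1'
    exact hs' (by simpa using this)
  have h3 : 6 * A * x + 5 = 0 := (mul_eq_zero.1 h2').resolve_left (pow_ne_zero _ hx0)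
  have h4 : 6 ^ 6 * S ^ 2 * A ^ 5 - 5 ^ 5 = 0 := by
    have e1 : 6 * A * x = -5 := by linear_combination h3
    have e2 : (6 * A * x) ^ 5 = (-5) ^ 5 := by rw [e1]
    have e3 : (6 * A) ^ 5 * (A * x ^ 6 + x ^ 5 + S ^ 2) = 0 := by rw [h1', mul_zero]
    have e4 : (6 * A) ^ 5 * (A * x ^ 6 + x ^ 5 + S ^ 2) =
      (6 * A * x) ^ 5 * (A * x + 1) + (6 * A) ^ 5 * S ^ 2 := by ring
    rw [e4, e2] at e3
    linear_combination 6 * e3 + 5 ^ 5 * e1
  have h5 : aeval a (C (6 ^ 6 * s ^ 2) * X ^ 5 - C (5 ^ 5) : E[X]) = 0 := by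
    apply (algebraMap k (AlgebraicClosure k)).injective
    rw [map_zero, ← h4, map_sub, map_mul, aeval_C, aeval_C, map_pow, aeval_X]
    simp only [map_sub, map_mul, map_pow, map_ofNat, hA, hS]
  have h6 : (C (6 ^ 6 * s ^ 2) * X ^ 5 - C (5 ^ 5) : E[X]) = 0 := by
    apply transcendental_iff_injective.1 ha
    rw [h5, map_zero]
  have h7 : (C (6 ^ 6 * s ^ 2) * X ^ 5 - C (5 ^ 5) : E[X]).coeff 0 = 0 := by rw [h6, coeff_zero]
  rw [coeff_sub, coeff_C_mul, coeff_X_pow, if_neg (by norm_num), mul_zero, zero_sub, coeff_C_zero,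
    neg_eq_zero] at h7
  norm_num at h7

end

end Pool.Agent.Helper66.W4.BASE
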