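import Pool.Agent.Helper66.W4.BASE5

set_option autoImplicit false

namespace Pool.Agent.Helper66.W4.BASE
open Polynomial Module IntermediateField Pool.Agent.Helper40.W4

section

variable {E k : Type} [Field E] [Field k] [CharZero E] [CharZero k] [Algebra E k] (a : k) (s : E)

omit [CharZero E] [Algebra E k] [Field E] [CharZero k] in
lemma finrank_bot_zero (c : k) : finrank k (BB k a c) = 0 := by
  by_contra hne
  have hfin : Module.Finite k (BB k a c) := Module.finite_of_finrank_pos (Nat.pos_of_ne_zero hne)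
  have halg : Algebra.IsAlgebraic k (BB k a c) := Algebra.IsAlgebraic.of_finite k _
  obtain ⟨p, hp, hp2⟩ := halg.isAlgebraic (algebraMap k[X] (BB k a c) X)
  have h1 : aeval (algebraMap k[X] (BB k a c) X) p = algebraMap k[X] (BB k a c) p := by
    have : IsScalarTower k k[X] (BB k a c) := IsScalarTower.of_algebraMap_eq (fun x => rfl)
    rw [aeval_algebraMap_apply, aeval_X_left_apply]
  rw [h1] at hp2
  exact hp (QuadraticAlgebra.algebraMap_injective (by rw [hp2, map_zero]))

theorem base' (hDEGB : S_DEGB) (hDED : S_DED) (hADD : S_ADD) (hs : s ≠ 0)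
    (ha : Transcendental E a) (htop : E⟮a⟯ = ⊤) (σ : k ≃+* k) (hσa : σ a = a)
    (hσs : σ (algebraMap E k s) = -algebraMap E k s) : Good k a (algebraMap E k s) σ := by
  have hns := nonsq a ha htop
  have hsq := sqfree a s hs ha
  have hs' : algebraMap E k s ≠ 0 := by rw [Ne, map_eq_zero]; exact hs
  refine ⟨hσa, hσs, hns, hs', hsq, ?_⟩
  intro I hodd x y hx hy hrel
  have hD : IsDedekindDomain (BB k a (algebraMap E k s ^ 2)) := hDED k a _ hns hsq
  obtain ⟨-, hdeg, -⟩ := hDEGB k a (algebraMap E k s ^ 2) hns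
  have hfd : ∀ J : Ideal (BB k a (algebraMap E k s ^ 2)), J ≠ ⊥ →
      FiniteDimensional k (BB k a (algebraMap E k s ^ 2) ⧸ J) := by
    intro J hJ
    obtain ⟨w, hw, hw0⟩ := Submodule.exists_mem_ne_zero_of_ne_bot hJ
    have := (hdeg w hw0).2.2.2
    have hle : Ideal.span {w} ≤ J := by rw [Ideal.span_singleton_le_iff_mem]; exact hw
    exact Module.Finite.of_surjective (Ideal.Quotient.factorₐ k hle).toLinearMap
      (Ideal.Quotient.factor_surjective hle)
  have hadd := hADD k (BB k a (algebraMap E k s ^ 2)) hfd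
  have hI : I ≠ ⊥ := by
    rintro rfl
    have h1 : finrank k (BB k a (algebraMap E k s ^ 2) ⧸ (⊥ : Ideal (BB k a (algebraMap E k s ^ 2)))) = 0 := by
      rw [(AlgEquiv.quotientBot k (BB k a (algebraMap E k s ^ 2))).toLinearEquiv.finrank_eq]
      exact finrank_bot_zero a _
    rw [h1] at hodd
    exact absurd hodd (by decide)
  have ht : algebraMap E k s ^ 2 = algebraMap E k s ^ 2 := rfl
  have ht' : (-algebraMap E k s) ^ 2 = algebraMap E k s ^ 2 := by ring
  have ht'' : (- -algebraMap E k s) ^ 2 = algebraMap E k s ^ 2 := by ring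
  have h2 : (2 : k) ≠ 0 := two_ne_zero
  obtain ⟨g, m, n, hg0, hg⟩ := class_gen a s h2 hs' ha htop ht ht' I hI
  have hσP := sigma_PP a (algebraMap E k s) (algebraMap E k s) ht ht' σ hσa (by simp [hσs]) hσs
  have hσQ := sigma_PP a (algebraMap E k s) (-algebraMap E k s) ht' ht'' σ hσa (by simp [hσs])
    (by rw [map_neg, hσs])
  have hQQ : PP a (algebraMap E k s) (- -algebraMap E k s) ht'' =
      PP a (algebraMap E k s) (algebraMap E k s) ht := by
    ext w
    rw [mem_PP, mem_PP, neg_neg]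
  rw [hQQ] at hσQ
  -- parity
  have hfinP : ∀ (t : k) (ht : t ^ 2 = algebraMap E k s ^ 2), t ≠ 0 → ∀ r : ℕ,
      PP a _ t ht ≠ ⊥ ∧ finrank k (BB k a (algebraMap E k s ^ 2) ⧸ (PP a _ t ht) ^ r) = r := by
    intro t ht ht0 r
    have h0 : PP a _ t ht ≠ ⊥ := by
      intro h0
      have h1 := PP_mul a _ t ht (by rw [neg_sq]; exact ht) ht0 h2
      rw [h0, Ideal.bot_mul, eq_comm, Ideal.span_singleton_eq_bot] at h1
      exact XB_ne_zero a _ h1
    refine ⟨h0, ?_⟩
    induction r with
    | zero =>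
      rw [pow_zero, Ideal.one_eq_top]
      exact finrank_zero_of_subsingleton
    | succ r ih =>
      rw [pow_succ (PP a _ t ht) r, hadd _ _ (pow_ne_zero _ h0) h0, ih, PP_finrank]
  obtain ⟨hP0, hPr⟩ : PP a _ (algebraMap E k s) ht ≠ ⊥ ∧ _ :=
    ⟨(hfinP _ ht hs' 0).1, fun r => (hfinP _ ht hs' r).2⟩
  obtain ⟨hQ0, hQr⟩ : PP a _ (-algebraMap E k s) ht' ≠ ⊥ ∧ _ :=
    ⟨(hfinP _ ht' (neg_ne_zero.2 hs') 0).1, fun r => (hfinP _ ht' (neg_ne_zero.2 hs') r).2⟩
  have hcod : finrank k (BB k a (algebraMap E k s ^ 2) ⧸ Ideal.span {g}) =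
      finrank k (BB k a (algebraMap E k s ^ 2) ⧸ I) + (m + n) := by
    rw [hg, hadd _ _ hI (mul_ne_zero (pow_ne_zero _ hP0) (pow_ne_zero _ hQ0)),
      hadd _ _ (pow_ne_zero _ hP0) (pow_ne_zero _ hQ0), hPr, hQr]
  have hev : Even (finrank k (BB k a (algebraMap E k s ^ 2) ⧸ Ideal.span {g})) := by
    rw [(hdeg g hg0).2.2.1]
    exact (hdeg g hg0).2.1
  have hmn : m ≠ n := by
    rintro rfl
    rw [hcod] at hev
    obtain ⟨r, hr⟩ := hev
    obtain ⟨r', hr'⟩ := hodd
    omega
  -- the relation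
  set τ := bmap (a := a) (c := algebraMap E k s ^ 2) (a' := a) (c' := algebraMap E k s ^ 2)
    (σ : k →+* k) hσa (by simp [hσs]) with hτ
  have hτg : τ g ≠ 0 := by
    intro h0
    apply hg0
    have h1 : g.re.map (σ : k →+* k) = 0 := congrArg QuadraticAlgebra.re h0
    have h3 : g.im.map (σ : k →+* k) = 0 := congrArg QuadraticAlgebra.im h0
    rw [Polynomial.map_eq_zero] at h1 h3
    ext1
    · exact h1
    · exact h3
  have hgσ : Ideal.span {τ g} = I.map τ * (PP a _ (-algebraMap E k s) ht' ^ m *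
      PP a _ (algebraMap E k s) ht ^ n) := by
    have := congrArg (Ideal.map τ) hg
    rw [Ideal.map_span, Set.image_singleton, Ideal.map_mul, Ideal.map_mul, Ideal.map_pow,
      Ideal.map_pow, hσP, hσQ] at this
    exact this
  have hfin : Ideal.span {x * g} * (PP a _ (-algebraMap E k s) ht' ^ m *
      PP a _ (algebraMap E k s) ht ^ n) = Ideal.span {y * τ g} *
      (PP a _ (algebraMap E k s) ht ^ m * PP a _ (-algebraMap E k s) ht' ^ n) := by
    rw [← Ideal.span_singleton_mul_span_singleton, ← Ideal.span_singleton_mul_span_singleton,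
      hg, hgσ, ← mul_assoc (Ideal.span {x}), hrel]
    simp only [mul_assoc, mul_left_comm, mul_comm]
  rcases lt_or_gt_of_ne hmn with hlt | hgt
  · refine no_rel a s hs' ha htop (-algebraMap E k s) ht' ht'' (x * g) (y * τ g)
      (mul_ne_zero hx hg0) (mul_ne_zero hy hτg) n m hlt ?_
    rw [hQQ, mul_comm (PP a (algebraMap E k s) (algebraMap E k s) ht ^ n), hfin, mul_comm
      (PP a (algebraMap E k s) (algebraMap E k s) ht ^ m)]
  · exact no_rel a s hs' ha htop (algebraMap E k s) ht ht' (x * g) (y * τ g)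
      (mul_ne_zero hx hg0) (mul_ne_zero hy hτg) m n hgt hfin

end

end Pool.Agent.Helper66.W4.BASE
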